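import Pool.Agent.E8helper69.CB.Main

/-!
# The cubic surface `F = 0` has no rational point

`F = x³ + 2x²y + y³ + y²z + xz² + z³ + t²x - t²y - t²z + tyz + t³`.

Let `H` be the splitting field of `X³ - X - 1` (class number one) and `L = ℚ(√-23) ⊂ H`, which has
class number three. The form `23³ F` is the determinant of a `3 × 3` matrix `M` of linear forms over
the ring of integers `R` of `H`. If `x` is a primitive zero of `F`, the kernel of `M(x)` is spanned
by a vector `w ∈ R³` with coprime entries. There are 27 explicit cubic forms `G_abc` over `R` with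
`G_abc(x) = μ w_a σ(w_b) σ²(w_c)`, where `σ` generates the Galois group of `H/L` and `μ ∈ L`; all
`G_abc` are divisible by a generator `π` of a prime ideal of `R` over `2`, and explicit linear
combinations of them show that `μ / π` divides a product of powers of `23` and `9013`. So `μ` is an
integer of `L` whose norm is `2 · 23^m · 9013^n`, which is impossible.
-/

set_option autoImplicit false

namespace Pool.Agent.Results.MP_3a7aac_nt.NoZerosH69

/-- The equation `F(x,y,z,t) = 0` has no nontrivial integer solution. -/
theorem result (x y z t : ℤ)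
    (h : x ^ 3 + 2 * x ^ 2 * y + y ^ 3 + y ^ 2 * z + x * z ^ 2 + z ^ 3 + t ^ 2 * x - t ^ 2 * y
      - t ^ 2 * z + t * y * z + t ^ 3 = 0) : x = 0 ∧ y = 0 ∧ z = 0 ∧ t = 0 :=
  Pool.Agent.E8helper69.CB.main x y z t h

end Pool.Agent.Results.MP_3a7aac_nt.NoZerosH69
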